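import Pool.Agent.Lib_helper37.MAP.Main
import Pool.Agent.Lib_helper44.Emb.Final

/-!
# Online metric allocation is polylogarithmically competitive on all finite metric spaces

There is a constant `A` such that for every finite metric space `M` with `n ≥ 2` points and every
starting allocation there is a deterministic online algorithm for the metric allocation problem
(with non-negative, non-increasing, convex cost functions) which is `A (log n)^4`-competitive.
-/

namespace Pool.Agent.Results.MP_3fe3f2_lc.PolylogMAP

open Pool.Agent.Lib37.MAP

universe u

/-- Online metric allocation is `O((log n)^4)`-competitive on every `n`-point metric space. -/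
theorem result : ∃ A : ℝ, ∀ (M : Type u) [Fintype M] [MetricSpace M], 2 ≤ Fintype.card M →
    ∀ x₀ ∈ stdSimplex ℝ M, ∃ alg : OnlineAlgorithm M x₀,
      IsCompetitive (fun i j => dist i j) alg (A * (Real.log (Fintype.card M)) ^ 4) :=
  main_of_emb Pool.Agent.Lib44.Emb.embStatement

end Pool.Agent.Results.MP_3fe3f2_lc.PolylogMAP
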